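import Pool.Agent.J6H22.RG.ExN
import Pool.Agent.J6H61.RG.Red

/-! # The modules of project RG -/

namespace Pool.Agent.J6H84.RG

theorem exN : S_ExN := Pool.Agent.J6H22.RG.ExN.main

theorem red : S_Red := Pool.Agent.J6H61.RG.Red.main

end Pool.Agent.J6H84.RG
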