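import Pool.Agent.J6H84.DG.Stm

/-!
# Project RG (hard problem MP_c7a479_co): variational sets with a cell-transitive group fixing every cube

Aim: if a group `G` of automorphisms fixing every cube is transitive on the cells and elements of prime
order `p ∣ n` have no fixed cell (e.g. `G` regular, or `k > n / 2 + m - 1`), then for every prime `p` and
`p ^ a` exactly dividing `n` there is such a set with `k` cubes of order `p ^ a`.  So `k ≤ p ^ a + m - 1`,
`k ≤ p + 1` if `a = 1`, `3 ≤ m ≤ p`; for squarefree `n` with least prime factor `p`, `3 ≤ m < p`, the maximum is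
exactly `p + 1`; and if `k > n / 2 + m - 1` then `n` is a prime power.

Modules: `S_Red`, `S_ExN`; complete proofs below.
-/

set_option autoImplicit false

namespace Pool.Agent.J6H84.RG

open Finset Pool.Agent.H430R2.PermCubes Pool.Agent.J6H84.LM Pool.Agent.J6H84.TS

/-- **Module RED** (Sylow reduction).

Proof.  Let `a = n.factorization p`.
(1) Let `P` be a Sylow `p`-subgroup of `G`.  `P` acts freely on the cells: if `σ ∈ P`, `σ ≠ 1`, `σ x = x`, then some
power of `σ` has order `p` and fixes `x`, against `hF`.  `|G| = n ^ m * |G_x|` (transitive on `n ^ m` cells) and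
`p ∤ |G_x|` (Cauchy, `hF`), so `|P| = p ^ (a m)`.
(2) `C i` is surjective (`Pool.Agent.J6H68.TS.Lab.surj`), so every `σ ∈ G` acts on the symbols of the cube `i` by the
unique `τ i σ` with `C i (σ x) = τ i σ (C i x)`; this is an action of `G`.  The `n` symbols of the cube `i` are
partitioned into `P`-orbits whose lengths are powers of `p`; since `p ^ (a+1) ∤ n` there is a symbol `s i` whose
`P`-orbit `O i` has length `≤ p ^ a` (otherwise all lengths are divisible by `p ^ (a+1)`).
(3) Let `M` be a set of `m` cubes and `x` the cell with `C i x = s i` for `i ∈ M`.  If `g, g' ∈ P` have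
`τ i g (s i) = τ i g' (s i)` for all `i ∈ M`, then `C i (g x) = C i (g' x)` for `i ∈ M`, so `g x = g' x`, `g = g'`.
So `g ↦ (τ i g (s i))_{i ∈ M}` is an injective map from `P` (`p ^ (a m)` elements) to `∏ i ∈ M, O i` (at most
`p ^ (a m)` elements), so it is bijective and `|O i| = p ^ a` for `i ∈ M`.  As `m ≤ k` this holds for all `i`.
(4) Choose bijections `e : (Fin m → Fin (p ^ a)) ≃ P` and `o i : O i ≃ Fin (p ^ a)`, `C' i y = o i (τ i (e y) (s i))`.
By (3) `IsArray m (p ^ a) k C'`.  For `h ∈ P` let `L h y = e⁻¹ (h * e y)`; then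
`C' i (L h y) = (o i ∘ τ i h ∘ (o i)⁻¹) (C' i y)`, so `Aut C' 1 (L h)`; `Q = {L h}` is a subgroup with
`|Q| = |P| = (p ^ a) ^ m`. -/
def S_Red : Prop := ∀ (m n k p : ℕ) [Fact p.Prime] (C : Fin k → (Fin m → Fin n) → Fin n),
  1 ≤ m → m ≤ k → 2 ≤ n → IsArray m n k C →
  ∀ G : Subgroup (Equiv.Perm (Fin m → Fin n)), (∀ σ ∈ G, Aut C 1 σ) →
    (∀ x y, ∃ σ ∈ G, σ x = y) → (∀ σ ∈ G, ∀ x, σ x = x → σ ^ p = 1 → σ = 1) →
    ∃ C' : Fin k → (Fin m → Fin (p ^ n.factorization p)) → Fin (p ^ n.factorization p),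
      IsArray m (p ^ n.factorization p) k C' ∧
      ∃ Q : Subgroup (Equiv.Perm (Fin m → Fin (p ^ n.factorization p))),
        (∀ σ ∈ Q, Aut C' 1 σ) ∧ Nat.card Q = (p ^ n.factorization p) ^ m

/-- **Module EXN** (import the start file `Pool.Agent.Y347.VL.ZM`; compare the module
`Pool.Agent.J6H75.TS.Ex`).

Proof.  `(Pool.Agent.Y347.VL.isGreatest_zmod hm hn).1`, for `3 ≤ m < n.minFac` the value is `n.minFac + 1`: there
is a variational set with `IsLinear (ZMod n) m n (n.minFac + 1) C`: `s j (C j x) = ∑ i, a j i * t i (x i)`.  For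
`v : Fin m → ZMod n` let `g v x = fun i => (t i)⁻¹ (t i (x i) + v i)`; `s j (C j (g v x)) = s j (C j x) + ∑ i, a j i * v i`, so
`Aut C 1 (g v)`; `G = {g v}` is a subgroup, `v ↦ g v` is injective, `g v x = y` for `v i = t i (y i) - t i (x i)`. -/
def S_ExN : Prop := ∀ (m n : ℕ), 3 ≤ m → m < n.minFac →
  ∃ C : Fin (n.minFac + 1) → (Fin m → Fin n) → Fin n, IsVariationalSet m n (n.minFac + 1) C ∧
    ∃ G : Subgroup (Equiv.Perm (Fin m → Fin n)), (∀ σ ∈ G, Aut C 1 σ) ∧
      (∀ x y, ∃ σ ∈ G, σ x = y) ∧ Nat.card G = n ^ m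

end Pool.Agent.J6H84.RG
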